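import Pool.Agent.Helper524.GL.Tensor

set_option autoImplicit false

namespace Pool.Agent.Results.MP_62da2d_co.ConstantFree

/-- Two points are comparable: the difference vector has at least two strictly positive coordinates or at
least two strictly negative coordinates. -/
def Comparable (s t : Fin 3 → ℤ) : Prop :=
  2 ≤ (Finset.univ.filter (fun i : Fin 3 => 0 < s i - t i)).card ∨
  2 ≤ (Finset.univ.filter (fun i : Fin 3 => s i - t i < 0)).card

lemma two_cases {P : Fin 3 → Prop} [DecidablePred P] (h : 2 ≤ (Finset.univ.filter P).card) :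
    (P 0 ∧ P 1) ∨ (P 0 ∧ P 2) ∨ (P 1 ∧ P 2) := by
  by_contra hcon
  push Not at hcon
  obtain ⟨h1, h2, h3⟩ := hcon
  have hsub : ∀ i j : Fin 3, i ∈ Finset.univ.filter P → j ∈ Finset.univ.filter P → i = j := by
    intro i j hi hj
    rw [Finset.mem_filter] at hi hj
    have hi := hi.2
    have hj := hj.2
    fin_cases i <;> fin_cases j <;> simp only [Fin.zero_eta, Fin.mk_one, Fin.reduceFinMk] at hi hj ⊢
    · exact absurd hj (h1 hi)
    · exact absurd hj (h2 hi)
    · exact absurd hi (h1 hj)
    · exact absurd hj (h3 hi)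
    · exact absurd hi (h2 hj)
    · exact absurd hi (h3 hj)
  have : (Finset.univ.filter P).card ≤ 1 :=
    Finset.card_le_one.2 (fun i hi j hj => hsub i j hi hj)
  omega

/-- There is `δ > 0` such that every pairwise comparable subset `S` of `{1, ..., N}^3` has at most
`N ^ (2 - δ)` elements, for every `N`. -/
theorem result : ∃ δ : ℝ, 0 < δ ∧ ∀ N : ℕ, ∀ S : Finset (Fin 3 → ℤ),
    (∀ s ∈ S, ∀ i, 1 ≤ s i ∧ s i ≤ N) →
    (∀ s ∈ S, ∀ t ∈ S, s ≠ t → Comparable s t) →
    (S.card : ℝ) ≤ (N : ℝ) ^ (2 - δ) := by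
  classical
  obtain ⟨δ, hδ, h⟩ := GoLo.power_saving
  refine ⟨δ, hδ, ?_⟩
  intro N S hS hc
  set f : (Fin 3 → ℤ) → ℕ × ℕ × ℕ := fun s => ((s 0 - 1).toNat, (s 1 - 1).toNat, (s 2 - 1).toNat) with hf
  have hcmp : ∀ s ∈ S, ∀ t ∈ S, s ≠ t → GoLo.Cmp (f s) (f t) := by
    intro s hs t ht hst
    have a0 := hS s hs 0
    have a1 := hS s hs 1
    have a2 := hS s hs 2
    have b0 := hS t ht 0
    have b1 := hS t ht 1
    have b2 := hS t ht 2
    unfold GoLo.Cmp
    simp only [hf]
    rcases hc s hs t ht hst with h1 | h1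
    · have := two_cases h1
      omega
    · have := two_cases h1
      omega
  have hinj : Set.InjOn f S := by
    intro s hs t ht hst
    by_contra hne
    have := hcmp s hs t ht hne
    rw [hst] at this
    unfold GoLo.Cmp at this
    omega
  have key := h N (S.image f) (by
    intro t ht
    rw [Finset.mem_image] at ht
    obtain ⟨s, hs, rfl⟩ := ht
    have a0 := hS s hs 0
    have a1 := hS s hs 1
    have a2 := hS s hs 2
    simp only [hf]
    omega) (by
    intro t ht u hu htu
    rw [Finset.mem_image] at ht hu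
    obtain ⟨s, hs, rfl⟩ := ht
    obtain ⟨s', hs', rfl⟩ := hu
    exact hcmp s hs s' hs' (by rintro rfl; exact htu rfl))
  rw [Finset.card_image_of_injOn hinj] at key
  exact key

end Pool.Agent.Results.MP_62da2d_co.ConstantFree
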